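import Mathlib

/-!
# Dirichlet eigenfunctions of a Schrodinger operator on an interval
-/

set_option autoImplicit false

namespace Pool.Agent.R228.PM

open Set MeasureTheory

/-- `u` is a Dirichlet eigenfunction of `-d²/dx² + V` on `(-1, 1)` with eigenvalue `lam`: it is
continuous on `[-1, 1]`, vanishes at the end points, and is twice differentiable on `(-1, 1)` with
`-u'' + V u = lam u`. -/
def IsDirichletEigenfunction (V : ℝ → ℝ) (lam : ℝ) (u : ℝ → ℝ) : Prop :=
  ContinuousOn u (Icc (-1) 1) ∧ u (-1) = 0 ∧ u 1 = 0 ∧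
  (∃ x ∈ Ioo (-1 : ℝ) 1, u x ≠ 0) ∧
  ∃ u' : ℝ → ℝ, (∀ x ∈ Ioo (-1 : ℝ) 1, HasDerivAt u (u' x) x) ∧
    ∀ x ∈ Ioo (-1 : ℝ) 1, HasDerivAt u' (V x * u x - lam * u x) x

/-- `(u j)` is an admissible eigenbasis with the eigenvalues `(lam j)` in nondecreasing order: an
orthonormal basis of `L²(-1, 1)` of real Dirichlet eigenfunctions. The last condition (only the zero
element of `L²` is orthogonal to all `u j`) is the completeness of the orthonormal system. -/
structure AdmissibleEigenbasis (V : ℝ → ℝ) (lam : ℕ → ℝ) (u : ℕ → ℝ → ℝ) : Prop where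
  mono : Monotone lam
  eigen : ∀ j, IsDirichletEigenfunction V (lam j) (u j)
  normalized : ∀ j, ∫ x in Ioo (-1 : ℝ) 1, u j x * u j x = 1
  orthogonal : ∀ i j, i ≠ j → ∫ x in Ioo (-1 : ℝ) 1, u i x * u j x = 0
  complete : ∀ f : ℝ → ℝ, MemLp f 2 (volume.restrict (Ioo (-1) 1)) →
    (∀ j, ∫ x in Ioo (-1 : ℝ) 1, f x * u j x = 0) → f =ᵐ[volume.restrict (Ioo (-1) 1)] 0

/-- The mean `⟨V⟩` of the potential in the state `u`. -/
noncomputable def mean (V u : ℝ → ℝ) : ℝ := ∫ x in Ioo (-1 : ℝ) 1, V x * u x ^ 2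

end Pool.Agent.R228.PM
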