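import Pool.Agent.R228.PM.Roots

/-!
# The means of the potential in the two states
-/

set_option autoImplicit false

namespace Pool.Agent.R228.PM

open Set MeasureTheory Filter Topology

theorem evInt {g : ℝ → ℝ} (hg : ContinuousOn g (Icc 0 1)) :
    ∫ x in Ioo (-1 : ℝ) 1, g |x| = 2 * ∫ x in (0 : ℝ)..1, g x := by
  have hab : ContinuousOn (fun x => g |x|) (Icc (-1) 1) := by
    refine hg.comp continuous_abs.continuousOn fun x hx => ?_
    exact ⟨abs_nonneg x, abs_le.2 hx⟩
  have i1 : IntervalIntegrable (fun x => g |x|) volume (-1) 0 :=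
    (hab.mono (Icc_subset_Icc le_rfl (by norm_num))).intervalIntegrable_of_Icc (by norm_num)
  have i2 : IntervalIntegrable (fun x => g |x|) volume 0 1 :=
    (hab.mono (Icc_subset_Icc (by norm_num) le_rfl)).intervalIntegrable_of_Icc (by norm_num)
  rw [← integral_Ioc_eq_integral_Ioo, ← intervalIntegral.integral_of_le (by norm_num : (-1 : ℝ) ≤ 1),
    ← intervalIntegral.integral_add_adjacent_intervals i1 i2]
  have e1 : ∫ x in (-1 : ℝ)..0, g |x| = ∫ x in (0 : ℝ)..1, g |x| := by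
    have := intervalIntegral.integral_comp_neg (a := 0) (b := 1) (fun x => g |x|)
    simp only [abs_neg, neg_zero] at this
    exact this.symm
  have e2 : ∫ x in (0 : ℝ)..1, g |x| = ∫ x in (0 : ℝ)..1, g x := by
    refine intervalIntegral.integral_congr fun x hx => ?_
    rw [uIcc_of_le (by norm_num : (0 : ℝ) ≤ 1)] at hx
    simp only [abs_of_nonneg hx.1]
  rw [e1, e2]
  ring

theorem odG_sq (F : ℝ → ℝ) (x : ℝ) : odG F x ^ 2 = F |x| ^ 2 := by
  unfold odG
  split_ifs with h
  · rw [abs_of_nonneg h]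
  · rw [abs_of_neg (not_le.1 h), neg_sq]

theorem pot_eq (x : ℝ) : pot x = 2 * al |x| ^ 2 := rfl

/-- The general estimate: a state close to a profile `s`. -/
theorem moments {F s : ℝ → ℝ} (hF : ContinuousOn F (Icc 0 1)) (hs : Continuous s)
    (hs1 : ∀ x, |s x| ≤ 1) (h : ∀ x, 0 ≤ x → x ≤ 1 → |F x - s x| ≤ 1 / 5000) :
    |(∫ x in (0 : ℝ)..1, F x ^ 2) - ∫ x in (0 : ℝ)..1, s x ^ 2| ≤ 1 / 1000 ∧
    |(∫ x in (0 : ℝ)..1, x * F x ^ 2) - ∫ x in (0 : ℝ)..1, x * s x ^ 2| ≤ 1 / 1000 := by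
  have hsq : ∀ x, 0 ≤ x → x ≤ 1 → |F x ^ 2 - s x ^ 2| ≤ 1 / 1000 := by
    intro x h0 h1
    have h2 := h x h0 h1
    have h3 := hs1 x
    have e : F x ^ 2 - s x ^ 2 = (F x - s x) * (F x - s x + 2 * s x) := by ring
    rw [e, abs_mul]
    have h4 : |F x - s x + 2 * s x| ≤ 3 := by
      refine (abs_add_le _ _).trans ?_
      rw [abs_mul, abs_of_pos (by norm_num : (0 : ℝ) < 2)]
      linarith
    calc |F x - s x| * |F x - s x + 2 * s x| ≤ 1 / 5000 * 3 :=
          mul_le_mul h2 h4 (abs_nonneg _) (by norm_num)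
      _ ≤ 1 / 1000 := by norm_num
  have iF : IntervalIntegrable (fun x => F x ^ 2) volume 0 1 :=
    (hF.pow 2).intervalIntegrable_of_Icc (by norm_num)
  have iS : IntervalIntegrable (fun x => s x ^ 2) volume 0 1 := (hs.pow 2).intervalIntegrable _ _
  have iF' : IntervalIntegrable (fun x => x * F x ^ 2) volume 0 1 :=
    (continuousOn_id.mul (hF.pow 2)).intervalIntegrable_of_Icc (by norm_num)
  have iS' : IntervalIntegrable (fun x => x * s x ^ 2) volume 0 1 :=
    (continuous_id.mul (hs.pow 2)).intervalIntegrable _ _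
  constructor
  · rw [← intervalIntegral.integral_sub iF iS]
    have := intervalIntegral.norm_integral_le_of_norm_le_const (a := 0) (b := 1) (C := 1 / 1000)
      (f := fun x => F x ^ 2 - s x ^ 2) (fun x hx => by
        rw [uIoc_of_le (by norm_num : (0 : ℝ) ≤ 1)] at hx
        rw [Real.norm_eq_abs]
        exact hsq x hx.1.le hx.2)
    rw [Real.norm_eq_abs, sub_zero, abs_one, mul_one] at this
    exact this
  · rw [← intervalIntegral.integral_sub iF' iS']
    have := intervalIntegral.norm_integral_le_of_norm_le_const (a := 0) (b := 1) (C := 1 / 1000)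
      (f := fun x => x * F x ^ 2 - x * s x ^ 2) (fun x hx => by
        rw [uIoc_of_le (by norm_num : (0 : ℝ) ≤ 1)] at hx
        rw [Real.norm_eq_abs, ← mul_sub, abs_mul, abs_of_nonneg hx.1.le]
        have h3 := hsq x hx.1.le hx.2
        have h4 := abs_nonneg (F x ^ 2 - s x ^ 2)
        nlinarith [hx.2, hx.1])
    rw [Real.norm_eq_abs, sub_zero, abs_one, mul_one] at this
    exact this

theorem int_sin_sq : ∫ x in (0 : ℝ)..1, Real.sin (Real.pi * x) ^ 2 = 1 / 2 := by
  have hπ := Real.pi_pos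
  have hd : ∀ x ∈ uIcc (0 : ℝ) 1, HasDerivAt
      (fun x => x / 2 - Real.sin (2 * Real.pi * x) / (4 * Real.pi))
      (Real.sin (Real.pi * x) ^ 2) x := by
    intro x _
    have := ((hasDerivAt_id x).div_const 2).fun_sub ((hsin (2 * Real.pi) x).div_const (4 * Real.pi))
    refine this.congr_deriv ?_
    have e : 2 * Real.pi * x = 2 * (Real.pi * x) := by ring
    rw [e, Real.cos_two_mul]
    have := Real.sin_sq_add_cos_sq (Real.pi * x)
    field_simp
    linear_combination -8 * this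
  rw [intervalIntegral.integral_eq_sub_of_hasDerivAt hd
    (by apply Continuous.intervalIntegrable; fun_prop)]
  rw [mul_one, mul_zero, Real.sin_zero, Real.sin_two_pi]
  ring

theorem int_x_sin_sq : ∫ x in (0 : ℝ)..1, x * Real.sin (Real.pi * x) ^ 2 = 1 / 4 := by
  have hπ := Real.pi_pos
  have hd : ∀ x ∈ uIcc (0 : ℝ) 1, HasDerivAt
      (fun x => x ^ 2 / 4 - x * Real.sin (2 * Real.pi * x) / (4 * Real.pi) -
        Real.cos (2 * Real.pi * x) / (8 * Real.pi ^ 2))
      (x * Real.sin (Real.pi * x) ^ 2) x := by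
    intro x _
    have := ((((hasDerivAt_id x).fun_pow 2).div_const 4).fun_sub
      (((hasDerivAt_id x).fun_mul (hsin (2 * Real.pi) x)).div_const (4 * Real.pi))).fun_sub
      ((hcos (2 * Real.pi) x).div_const (8 * Real.pi ^ 2))
    refine this.congr_deriv ?_
    have e : 2 * Real.pi * x = 2 * (Real.pi * x) := by ring
    simp only [id, Nat.cast_ofNat]
    rw [e, Real.cos_two_mul]
    have := Real.sin_sq_add_cos_sq (Real.pi * x)
    field_simp
    linear_combination -32 * Real.pi * x * this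
  rw [intervalIntegral.integral_eq_sub_of_hasDerivAt hd
    (by apply Continuous.intervalIntegrable; fun_prop)]
  rw [mul_one, mul_zero, Real.sin_zero, Real.sin_two_pi, Real.cos_zero, Real.cos_two_pi]
  ring

theorem int_cos_sq : ∫ x in (0 : ℝ)..1, Real.cos (3 * Real.pi / 2 * x) ^ 2 = 1 / 2 := by
  have hπ := Real.pi_pos
  have hd : ∀ x ∈ uIcc (0 : ℝ) 1, HasDerivAt
      (fun x => x / 2 + Real.sin (3 * Real.pi * x) / (6 * Real.pi))
      (Real.cos (3 * Real.pi / 2 * x) ^ 2) x := by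
    intro x _
    have := ((hasDerivAt_id x).div_const 2).fun_add ((hsin (3 * Real.pi) x).div_const (6 * Real.pi))
    refine this.congr_deriv ?_
    have e : 3 * Real.pi * x = 2 * (3 * Real.pi / 2 * x) := by ring
    rw [e, Real.cos_two_mul]
    field_simp
    ring
  rw [intervalIntegral.integral_eq_sub_of_hasDerivAt hd
    (by apply Continuous.intervalIntegrable; fun_prop)]
  have e : Real.sin (3 * Real.pi) = 0 := by
    rw [show 3 * Real.pi = Real.pi + 2 * Real.pi by ring, Real.sin_add_two_pi, Real.sin_pi]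
  rw [mul_one, mul_zero, Real.sin_zero, e]
  ring

theorem int_x_cos_sq : ∫ x in (0 : ℝ)..1, x * Real.cos (3 * Real.pi / 2 * x) ^ 2 =
    1 / 4 - 1 / (9 * Real.pi ^ 2) := by
  have hπ := Real.pi_pos
  have hd : ∀ x ∈ uIcc (0 : ℝ) 1, HasDerivAt
      (fun x => x ^ 2 / 4 + x * Real.sin (3 * Real.pi * x) / (6 * Real.pi) +
        Real.cos (3 * Real.pi * x) / (18 * Real.pi ^ 2))
      (x * Real.cos (3 * Real.pi / 2 * x) ^ 2) x := by
    intro x _
    have := ((((hasDerivAt_id x).fun_pow 2).div_const 4).fun_add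
      (((hasDerivAt_id x).fun_mul (hsin (3 * Real.pi) x)).div_const (6 * Real.pi))).fun_add
      ((hcos (3 * Real.pi) x).div_const (18 * Real.pi ^ 2))
    refine this.congr_deriv ?_
    have e : 3 * Real.pi * x = 2 * (3 * Real.pi / 2 * x) := by ring
    simp only [id, Nat.cast_ofNat]
    rw [e, Real.cos_two_mul]
    field_simp
    ring
  rw [intervalIntegral.integral_eq_sub_of_hasDerivAt hd
    (by apply Continuous.intervalIntegrable; fun_prop)]
  have e : Real.sin (3 * Real.pi) = 0 := by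
    rw [show 3 * Real.pi = Real.pi + 2 * Real.pi by ring, Real.sin_add_two_pi, Real.sin_pi]
  have e' : Real.cos (3 * Real.pi) = -1 := by
    rw [show 3 * Real.pi = Real.pi + 2 * Real.pi by ring, Real.cos_add_two_pi, Real.cos_pi]
  rw [mul_one, mul_zero, Real.sin_zero, Real.cos_zero, e, e']
  field_simp
  ring

/-- Bounds for the potential energy in terms of the moments. -/
theorem pot_bounds {F : ℝ → ℝ} (hF : ContinuousOn F (Icc 0 1)) :
    2 * ep ^ 2 * (∫ x in (0 : ℝ)..1, F x ^ 2) + 4 * ep ^ 3 * (∫ x in (0 : ℝ)..1, x * F x ^ 2) ≤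
      ∫ x in (0 : ℝ)..1, 2 * al x ^ 2 * F x ^ 2 ∧
    ∫ x in (0 : ℝ)..1, 2 * al x ^ 2 * F x ^ 2 ≤
      2 * ep ^ 2 * (∫ x in (0 : ℝ)..1, F x ^ 2) +
        4 * ep ^ 3 * (1001 / 1000) * (∫ x in (0 : ℝ)..1, x * F x ^ 2) := by
  have iF : IntervalIntegrable (fun x => F x ^ 2) volume 0 1 :=
    (hF.pow 2).intervalIntegrable_of_Icc (by norm_num)
  have iF' : IntervalIntegrable (fun x => x * F x ^ 2) volume 0 1 :=
    (continuousOn_id.mul (hF.pow 2)).intervalIntegrable_of_Icc (by norm_num)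
  have hal : ContinuousOn al (Icc 0 1) := fun x hx =>
    (al_deriv (by linarith [hx.2])).continuousAt.continuousWithinAt
  have iA : IntervalIntegrable (fun x => 2 * al x ^ 2 * F x ^ 2) volume 0 1 :=
    ((continuousOn_const.mul (hal.pow 2)).mul (hF.pow 2)).intervalIntegrable_of_Icc (by norm_num)
  have hpt : ∀ x ∈ Icc (0 : ℝ) 1, 4 * ep ^ 3 * x ≤ 2 * al x ^ 2 - 2 * ep ^ 2 ∧
      2 * al x ^ 2 - 2 * ep ^ 2 ≤ 4 * ep ^ 3 * (1001 / 1000) * x := by
    intro x hx
    obtain ⟨a1, a2⟩ := al_bounds hx.1 hx.2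
    have hep := ep_pos
    have h1 : al x - ep = ep * x * al x := al_sub (by linarith [hx.2])
    have e : 2 * al x ^ 2 - 2 * ep ^ 2 = 2 * ep * x * (al x * (al x + ep)) := by
      calc 2 * al x ^ 2 - 2 * ep ^ 2 = 2 * (al x - ep) * (al x + ep) := by ring
        _ = _ := by
          rw [h1]
          ring
    rw [e]
    have h2 : ep * (ep + ep) ≤ al x * (al x + ep) :=
      mul_le_mul a1 (by linarith) (by linarith) (by linarith)
    have h3 : al x * (al x + ep) ≤ 1 / 9999 * (1 / 9999 + ep) :=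
      mul_le_mul a2 (by linarith) (by linarith) (by norm_num)
    have h4 : (1 : ℝ) / 9999 * (1 / 9999 + ep) ≤ 2 * ep ^ 2 * (1001 / 1000) := by
      unfold ep
      norm_num
    have h5 : 0 ≤ 2 * ep * x := by
      have := hx.1
      positivity
    constructor
    · calc 4 * ep ^ 3 * x = 2 * ep * x * (ep * (ep + ep)) := by ring
        _ ≤ _ := mul_le_mul_of_nonneg_left h2 h5
    · calc 2 * ep * x * (al x * (al x + ep)) ≤ 2 * ep * x * (2 * ep ^ 2 * (1001 / 1000)) :=
            mul_le_mul_of_nonneg_left (h3.trans h4) h5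
        _ = _ := by ring
  constructor
  · rw [← intervalIntegral.integral_const_mul, ← intervalIntegral.integral_const_mul,
      ← intervalIntegral.integral_add (iF.const_mul _) (iF'.const_mul _)]
    refine intervalIntegral.integral_mono_on (by norm_num) ((iF.const_mul _).add (iF'.const_mul _))
      iA fun x hx => ?_
    have h1 := (hpt x hx).1
    have h2 := sq_nonneg (F x)
    nlinarith
  · rw [← intervalIntegral.integral_const_mul, ← intervalIntegral.integral_const_mul,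
      ← intervalIntegral.integral_add (iF.const_mul _) (iF'.const_mul _)]
    refine intervalIntegral.integral_mono_on (by norm_num) iA
      ((iF.const_mul _).add (iF'.const_mul _)) fun x hx => ?_
    have h1 := (hpt x hx).2
    have h2 := sq_nonneg (F x)
    nlinarith

theorem pot_bdd : ∀ x ∈ Ioo (-1 : ℝ) 1, |pot x| ≤ 1 := by
  intro x hx
  have h0 := abs_nonneg x
  have h1 : |x| ≤ 1 := abs_le.2 ⟨hx.1.le, hx.2.le⟩
  obtain ⟨a1, a2⟩ := al_bounds h0 h1
  rw [pot_eq, abs_of_nonneg (by positivity)]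
  have := ep_pos
  nlinarith

/-- The potential is a counterexample. -/
theorem counterexample {lam : ℕ → ℝ} {u : ℕ → ℝ → ℝ} (hb : AdmissibleEigenbasis pot lam u) :
    ∃ j, mean pot (u (j + 1)) < mean pot (u j) := by
  have hπ := Real.pi_gt_three
  have hπ' := Real.pi_lt_d2
  have hep := ep_pos
  obtain ⟨k, hk0, hk1, hkr⟩ := odd_root
  obtain ⟨l, hl0, hl1, hlr⟩ := even_root
  have hk : 3 < k := by linarith
  have hl : 3 < l := by linarith
  have hkz : k ≠ 0 := by linarith
  have hlz : l ≠ 0 := by linarith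
  have hIcc : ∀ x ∈ Icc (-1 : ℝ) 1, |x| < 10000 := fun x hx => by
    have : |x| ≤ 1 := abs_le.2 ⟨hx.1, hx.2⟩
    linarith
  have hIoo : ∀ x ∈ Ioo (-1 : ℝ) 1, |x| < 10000 := fun x hx =>
    hIcc x (Ioo_subset_Icc_self hx)
  -- the odd state
  have oc : ContinuousOn (odG (Uo k)) (Icc (-1) 1) := fun x hx =>
    (odG_deriv (R := 10000) (fun y hy => Uo_deriv hkz hy) (hIcc x hx)
      Uo_zero).continuousAt.continuousWithinAt
  have o0 : odG (Uo k) (-1) = 0 := by
    unfold odG
    rw [if_neg (by norm_num), neg_neg, hkr, neg_zero]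
  have o1 : odG (Uo k) 1 = 0 := by
    unfold odG
    rw [if_pos (by norm_num), hkr]
  have od1 : ∀ x ∈ Ioo (-1 : ℝ) 1, HasDerivAt (odG (Uo k)) (evG (Uo' k) x) x := fun x hx =>
    odG_deriv (R := 10000) (fun y hy => Uo_deriv hkz hy) (hIoo x hx) Uo_zero
  have od2 : ∀ x ∈ Ioo (-1 : ℝ) 1, HasDerivAt (evG (Uo' k))
      (pot x * odG (Uo k) x - k ^ 2 * odG (Uo k) x) x := by
    intro x hx
    have := evG_deriv (F := Uo' k) (F' := fun x => (2 * al x ^ 2 - k ^ 2) * Uo k x) (R := 10000)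
      (fun y hy => Uo_deriv2 hkz hy) (hIoo x hx) (by simp only [Uo_zero, mul_zero])
    refine this.congr_deriv ?_
    rw [pot_eq]
    unfold odG
    split_ifs with h
    · rw [abs_of_nonneg h]
      ring
    · rw [abs_of_neg (not_le.1 h)]
      ring
  have cUo : ContinuousOn (Uo k) (Icc 0 1) := fun x hx =>
    (Uo_deriv hkz (by linarith [hx.2])).continuousAt.continuousWithinAt
  have cPe : ContinuousOn (Pe l) (Icc 0 1) := fun x hx =>
    (Pe_deriv hlz (by linarith [hx.2])).continuousAt.continuousWithinAt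
  have hal : ContinuousOn al (Icc 0 1) := fun x hx =>
    (al_deriv (by linarith [hx.2])).continuousAt.continuousWithinAt
  obtain ⟨m1, m2⟩ := moments cUo (s := fun x => Real.sin (Real.pi * x)) (by fun_prop)
    (fun x => Real.abs_sin_le_one _) (fun x h0 h1 => Uo_close hk0 hk1 h0 h1)
  obtain ⟨m3, m4⟩ := moments cPe (s := fun x => Real.cos (3 * Real.pi / 2 * x)) (by fun_prop)
    (fun x => Real.abs_cos_le_one _) (fun x h0 h1 => Pe_close hl0 hl1 h0 h1)
  rw [int_sin_sq] at m1
  rw [int_x_sin_sq] at m2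
  rw [int_cos_sq] at m3
  rw [int_x_cos_sq] at m4
  obtain ⟨p1, -⟩ := pot_bounds cUo
  obtain ⟨-, p2⟩ := pot_bounds cPe
  have iNo : ∫ x in Ioo (-1 : ℝ) 1, odG (Uo k) x ^ 2 = 2 * ∫ x in (0 : ℝ)..1, Uo k x ^ 2 := by
    rw [← evInt (g := fun x => Uo k x ^ 2) (cUo.pow 2)]
    refine setIntegral_congr_fun measurableSet_Ioo fun x _ => ?_
    exact odG_sq _ _
  have iNe : ∫ x in Ioo (-1 : ℝ) 1, evG (Pe l) x ^ 2 = 2 * ∫ x in (0 : ℝ)..1, Pe l x ^ 2 := by
    rw [← evInt (g := fun x => Pe l x ^ 2) (cPe.pow 2)]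
    rfl
  have iMo : mean pot (odG (Uo k)) = 2 * ∫ x in (0 : ℝ)..1, 2 * al x ^ 2 * Uo k x ^ 2 := by
    rw [← evInt (g := fun x => 2 * al x ^ 2 * Uo k x ^ 2)
      ((continuousOn_const.mul (hal.pow 2)).mul (cUo.pow 2))]
    refine setIntegral_congr_fun measurableSet_Ioo fun x _ => ?_
    simp only [odG_sq, pot_eq]
  have iMe : mean pot (evG (Pe l)) = 2 * ∫ x in (0 : ℝ)..1, 2 * al x ^ 2 * Pe l x ^ 2 := by
    rw [← evInt (g := fun x => 2 * al x ^ 2 * Pe l x ^ 2)
      ((continuousOn_const.mul (hal.pow 2)).mul (cPe.pow 2))]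
    rfl
  set No := ∫ x in (0 : ℝ)..1, Uo k x ^ 2
  set Mo := ∫ x in (0 : ℝ)..1, x * Uo k x ^ 2
  set Ne := ∫ x in (0 : ℝ)..1, Pe l x ^ 2
  set Me := ∫ x in (0 : ℝ)..1, x * Pe l x ^ 2
  rw [abs_le] at m1 m2 m3 m4
  obtain ⟨i, hi1, hi2⟩ := occurs pot_bdd hb oc o0 o1 od1 od2
    (Or.inr (by
      show Uo' k |0| ≠ 0
      rw [abs_zero, Uo'_zero hkz]
      exact hkz)) (by rw [iNo]; linarith [m1.1])
  -- the even state
  have ec : ContinuousOn (evG (Pe l)) (Icc (-1) 1) := fun x hx =>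
    (evG_deriv (R := 10000) (fun y hy => Pe_deriv hlz hy) (hIcc x hx)
      (Pe'_zero hlz)).continuousAt.continuousWithinAt
  have e0 : evG (Pe l) (-1) = 0 := by
    show Pe l |(-1 : ℝ)| = 0
    rw [abs_neg, abs_one, hlr]
  have e1 : evG (Pe l) 1 = 0 := by
    show Pe l |(1 : ℝ)| = 0
    rw [abs_one, hlr]
  have ed1 : ∀ x ∈ Ioo (-1 : ℝ) 1, HasDerivAt (evG (Pe l)) (odG (Pe' l) x) x := fun x hx =>
    evG_deriv (R := 10000) (fun y hy => Pe_deriv hlz hy) (hIoo x hx) (Pe'_zero hlz)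
  have ed2 : ∀ x ∈ Ioo (-1 : ℝ) 1, HasDerivAt (odG (Pe' l))
      (pot x * evG (Pe l) x - l ^ 2 * evG (Pe l) x) x := by
    intro x hx
    have := odG_deriv (F := Pe' l) (F' := fun x => (2 * al x ^ 2 - l ^ 2) * Pe l x) (R := 10000)
      (fun y hy => Pe_deriv2 hlz hy) (hIoo x hx) (Pe'_zero hlz)
    refine this.congr_deriv ?_
    rw [pot_eq]
    unfold evG
    ring
  obtain ⟨j, hj1, hj2⟩ := occurs pot_bdd hb ec e0 e1 ed1 ed2
    (Or.inl (by
      show Pe l |0| ≠ 0
      rw [abs_zero, Pe_zero hlz]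
      exact one_ne_zero)) (by rw [iNe]; linarith [m3.1])
  -- comparison
  rw [iNo, iMo] at hi2
  rw [iNe, iMe] at hj2
  have hNo : 0 < No := by linarith [m1.1]
  have hNe : 0 < Ne := by linarith [m3.1]
  have hpi2 : (1 : ℝ) / 90 ≤ 1 / (9 * Real.pi ^ 2) := by
    apply one_div_le_one_div_of_le (by positivity)
    nlinarith
  have hlow : 2 * ep ^ 2 + 4 * ep ^ 3 * (248 / 501) ≤ mean pot (u i) := by
    have h1 : (2 * ep ^ 2 + 4 * ep ^ 3 * (248 / 501)) * No ≤ mean pot (u i) * No := by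
      have h2 : 248 / 501 * No ≤ Mo := by linarith [m1.2, m2.1]
      have h3 : 4 * ep ^ 3 * (248 / 501 * No) ≤ 4 * ep ^ 3 * Mo :=
        mul_le_mul_of_nonneg_left h2 (by positivity)
      linarith
    exact le_of_mul_le_mul_right h1 hNo
  have hup : mean pot (u j) ≤ 2 * ep ^ 2 + 4 * ep ^ 3 * (121 / 250) := by
    have h1 : mean pot (u j) * Ne ≤ (2 * ep ^ 2 + 4 * ep ^ 3 * (121 / 250)) * Ne := by
      have h2 : 1001 / 1000 * Me ≤ 121 / 250 * Ne := by linarith [m3.1, m4.2]
      have h3 : 4 * ep ^ 3 * (1001 / 1000 * Me) ≤ 4 * ep ^ 3 * (121 / 250 * Ne) :=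
        mul_le_mul_of_nonneg_left h2 (by positivity)
      linarith
    exact le_of_mul_le_mul_right h1 hNe
  have hlt : mean pot (u j) < mean pot (u i) := by
    have : 4 * ep ^ 3 * (121 / 250) < 4 * ep ^ 3 * (248 / 501) :=
      mul_lt_mul_of_pos_left (by norm_num) (by positivity)
    linarith
  have hij : i ≤ j := by
    by_contra hcon
    push Not at hcon
    have := hb.mono hcon.le
    rw [hi1, hj1] at this
    nlinarith
  by_contra hcon
  push Not at hcon
  have hmono : Monotone fun n => mean pot (u n) := monotone_nat_of_le_succ hcon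
  exact absurd (hmono hij) (not_le.2 hlt)

end Pool.Agent.R228.PM
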