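import Pool.Agent.R228.PM.Defs

/-!
# Wronskians, orthogonality and simplicity
-/

set_option autoImplicit false

namespace Pool.Agent.R228.PM

open Set MeasureTheory Filter Topology

variable {V : ℝ → ℝ} {B : ℝ}

/-- The derivative of an eigenfunction is bounded when the potential is. -/
theorem deriv_bounded (hV : ∀ x ∈ Ioo (-1 : ℝ) 1, |V x| ≤ B) {lam : ℝ} {u u' : ℝ → ℝ}
    (hc : ContinuousOn u (Icc (-1) 1))
    (h2 : ∀ x ∈ Ioo (-1 : ℝ) 1, HasDerivAt u' (V x * u x - lam * u x) x) :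
    ∃ M : ℝ, ∀ x ∈ Ioo (-1 : ℝ) 1, |u' x| ≤ M := by
  obtain ⟨U, hU⟩ := isCompact_Icc.exists_bound_of_continuousOn hc
  have hB : 0 ≤ B := (abs_nonneg _).trans (hV 0 ⟨by norm_num, by norm_num⟩)
  have hU0 : 0 ≤ U := (norm_nonneg _).trans (hU 0 ⟨by norm_num, by norm_num⟩)
  refine ⟨|u' 0| + (B + |lam|) * U * 1, fun x hx => ?_⟩
  have h0 : (0 : ℝ) ∈ Ioo (-1 : ℝ) 1 := ⟨by norm_num, by norm_num⟩
  have h3 := Convex.norm_image_sub_le_of_norm_hasDerivWithin_le (f := u')
    (f' := fun x => V x * u x - lam * u x) (C := (B + |lam|) * U) (s := Ioo (-1) 1)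
    (fun y hy => (h2 y hy).hasDerivWithinAt) (fun y hy => ?_) (convex_Ioo _ _) h0 hx
  · rw [Real.norm_eq_abs, Real.norm_eq_abs, sub_zero] at h3
    have h4 : |x| ≤ 1 := abs_le.2 ⟨hx.1.le, hx.2.le⟩
    have h5 : (B + |lam|) * U * |x| ≤ (B + |lam|) * U * 1 :=
      mul_le_mul_of_nonneg_left h4 (by positivity)
    have h6 : |u' x| ≤ |u' 0| + |u' x - u' 0| := by
      have := abs_add_le (u' 0) (u' x - u' 0)
      rw [add_sub_cancel] at this
      exact this
    linarith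
  · have h4 := hU y (Ioo_subset_Icc_self hy)
    rw [Real.norm_eq_abs] at h4 ⊢
    have h5 := hV y hy
    calc |V y * u y - lam * u y| = |(V y - lam) * u y| := by ring_nf
      _ = |V y - lam| * |u y| := abs_mul _ _
      _ ≤ (B + |lam|) * U := by
          refine mul_le_mul ?_ h4 (abs_nonneg _) (by positivity)
          exact (abs_sub _ _).trans (by linarith)

/-- A product of a function tending to zero and a bounded function tends to zero. -/
theorem tendsto_mul_zero {f g : ℝ → ℝ} {l : Filter ℝ} (hf : Tendsto f l (𝓝 0)) {M : ℝ}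
    (hg : ∀ᶠ x in l, |g x| ≤ M) : Tendsto (fun x => f x * g x) l (𝓝 0) := by
  refine squeeze_zero_norm' (a := fun x => |f x| * M) ?_ ?_
  · filter_upwards [hg] with x hx
    rw [Real.norm_eq_abs, abs_mul]
    exact mul_le_mul_of_nonneg_left hx (abs_nonneg _)
  · have h1 := hf.abs.mul_const M
    rw [abs_zero, zero_mul] at h1
    exact h1

theorem wronskian_tendsto {u v u' v' : ℝ → ℝ} {M N : ℝ} (hu : ContinuousOn u (Icc (-1) 1))
    (hv : ContinuousOn v (Icc (-1) 1)) (hM : ∀ x ∈ Ioo (-1 : ℝ) 1, |u' x| ≤ M)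
    (hN : ∀ x ∈ Ioo (-1 : ℝ) 1, |v' x| ≤ N) (u1 : u 1 = 0) (u0 : u (-1) = 0) (v1 : v 1 = 0)
    (v0 : v (-1) = 0) :
    Tendsto (fun x => u x * v' x - v x * u' x) (𝓝[>] (-1)) (𝓝 0) ∧
    Tendsto (fun x => u x * v' x - v x * u' x) (𝓝[<] 1) (𝓝 0) := by
  have key : ∀ (w : ℝ → ℝ), ContinuousOn w (Icc (-1) 1) → w 1 = 0 → w (-1) = 0 →
      Tendsto w (𝓝[>] (-1)) (𝓝 0) ∧ Tendsto w (𝓝[<] 1) (𝓝 0) := by
    intro w hw w1 w0
    constructor
    · have h1 := (hw (-1) ⟨le_rfl, by norm_num⟩)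
      have h2 : Tendsto w (𝓝[Icc (-1) 1] (-1)) (𝓝 0) := by
        have := h1.tendsto
        rwa [w0] at this
      refine h2.mono_left ?_
      have h3 : 𝓝[Ioo (-1 : ℝ) 1] (-1) = 𝓝[>] (-1) := nhdsWithin_Ioo_eq_nhdsGT (by norm_num)
      rw [← h3]
      exact nhdsWithin_mono _ Ioo_subset_Icc_self
    · have h1 := (hw 1 ⟨by norm_num, le_rfl⟩)
      have h2 : Tendsto w (𝓝[Icc (-1) 1] 1) (𝓝 0) := by
        have := h1.tendsto
        rwa [w1] at this
      refine h2.mono_left ?_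
      have h3 : 𝓝[Ioo (-1 : ℝ) 1] 1 = 𝓝[<] 1 := nhdsWithin_Ioo_eq_nhdsLT (by norm_num)
      rw [← h3]
      exact nhdsWithin_mono _ Ioo_subset_Icc_self
  obtain ⟨a1, a2⟩ := key u hu u1 u0
  obtain ⟨b1, b2⟩ := key v hv v1 v0
  have e1 : ∀ᶠ x in 𝓝[>] (-1 : ℝ), x ∈ Ioo (-1 : ℝ) 1 := Ioo_mem_nhdsGT (by norm_num)
  have e2 : ∀ᶠ x in 𝓝[<] (1 : ℝ), x ∈ Ioo (-1 : ℝ) 1 := Ioo_mem_nhdsLT (by norm_num)
  constructor
  · have h1 := tendsto_mul_zero (g := v') a1 (e1.mono fun x hx => hN x hx)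
    have h2 := tendsto_mul_zero (g := u') b1 (e1.mono fun x hx => hM x hx)
    have := h1.sub h2
    rwa [sub_zero] at this
  · have h1 := tendsto_mul_zero (g := v') a2 (e2.mono fun x hx => hN x hx)
    have h2 := tendsto_mul_zero (g := u') b2 (e2.mono fun x hx => hM x hx)
    have := h1.sub h2
    rwa [sub_zero] at this

/-- Eigenfunctions for different eigenvalues are orthogonal. -/
theorem orth (hV : ∀ x ∈ Ioo (-1 : ℝ) 1, |V x| ≤ B) {lam μ : ℝ} {u v : ℝ → ℝ}
    (hu : IsDirichletEigenfunction V lam u) (hv : IsDirichletEigenfunction V μ v)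
    (h : lam ≠ μ) : ∫ x in Ioo (-1 : ℝ) 1, v x * u x = 0 := by
  obtain ⟨cu, u0, u1, -, u', hu1, hu2⟩ := hu
  obtain ⟨cv, v0, v1, -, v', hv1, hv2⟩ := hv
  obtain ⟨M, hM⟩ := deriv_bounded hV cu hu2
  obtain ⟨N, hN⟩ := deriv_bounded hV cv hv2
  obtain ⟨t1, t2⟩ := wronskian_tendsto cu cv hM hN u1 u0 v1 v0
  have hint : IntervalIntegrable (fun x => (lam - μ) * (v x * u x)) volume (-1) 1 := by
    refine ContinuousOn.intervalIntegrable_of_Icc (by norm_num) ?_
    exact continuousOn_const.mul (cv.mul cu)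
  have h1 := intervalIntegral.integral_eq_sub_of_hasDerivAt_of_tendsto (by norm_num : (-1 : ℝ) < 1)
    (f := fun x => u x * v' x - v x * u' x) (f' := fun x => (lam - μ) * (v x * u x))
    (fun x hx => by
      have := ((hu1 x hx).fun_mul (hv2 x hx)).fun_sub ((hv1 x hx).fun_mul (hu2 x hx))
      refine this.congr_deriv ?_
      ring) hint t1 t2
  rw [intervalIntegral.integral_const_mul, sub_zero,
    intervalIntegral.integral_of_le (by norm_num : (-1 : ℝ) ≤ 1),
    integral_Ioc_eq_integral_Ioo] at h1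
  exact (mul_eq_zero.1 h1).resolve_left (sub_ne_zero.2 h)

/-- A solution with vanishing Cauchy data at `0` vanishes. -/
theorem uniqueness (hV : ∀ x ∈ Ioo (-1 : ℝ) 1, |V x| ≤ B) {μ : ℝ} {w w' : ℝ → ℝ}
    (h1 : ∀ x ∈ Ioo (-1 : ℝ) 1, HasDerivAt w (w' x) x)
    (h2 : ∀ x ∈ Ioo (-1 : ℝ) 1, HasDerivAt w' (V x * w x - μ * w x) x) (hw : w 0 = 0)
    (hw' : w' 0 = 0) : ∀ x ∈ Ioo (-1 : ℝ) 1, w x = 0 := by
  set M : ℝ := 1 + B + |μ| with hM
  set E : ℝ → ℝ := fun x => w x ^ 2 + w' x ^ 2 with hE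
  have h0 : (0 : ℝ) ∈ Ioo (-1 : ℝ) 1 := ⟨by norm_num, by norm_num⟩
  have hE0 : E 0 = 0 := by
    simp only [hE, hw, hw']
    norm_num
  have hdE : ∀ x ∈ Ioo (-1 : ℝ) 1, HasDerivAt E (2 * w x * w' x * (1 + V x - μ)) x := by
    intro x hx
    have := ((h1 x hx).fun_pow 2).fun_add ((h2 x hx).fun_pow 2)
    refine this.congr_deriv ?_
    simp only [Nat.cast_ofNat]
    ring
  have hbd : ∀ x ∈ Ioo (-1 : ℝ) 1, |2 * w x * w' x * (1 + V x - μ)| ≤ M * E x := by
    intro x hx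
    have h3 : |2 * w x * w' x| ≤ E x := by
      rw [abs_le]
      simp only [hE]
      constructor
      · nlinarith [sq_nonneg (w x + w' x)]
      · nlinarith [sq_nonneg (w x - w' x)]
    have h4 : |1 + V x - μ| ≤ M := by
      have h5 := hV x hx
      calc |1 + V x - μ| ≤ |1 + V x| + |μ| := abs_sub _ _
        _ ≤ |(1 : ℝ)| + |V x| + |μ| := by
            have := abs_add_le 1 (V x)
            linarith
        _ ≤ M := by
            rw [abs_one, hM]
            linarith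
    rw [abs_mul, mul_comm M]
    exact mul_le_mul h3 h4 (abs_nonneg _) ((abs_nonneg _).trans h3)
  have hexp : ∀ (c x : ℝ), HasDerivAt (fun x => Real.exp (c * x)) (c * Real.exp (c * x)) x := by
    intro c x
    have h1 : HasDerivAt (fun x : ℝ => c * x) c x := by
      simpa using (hasDerivAt_id x).const_mul c
    have h2 := h1.exp
    rwa [mul_comm] at h2
  have hzero : ∀ x ∈ Ioo (-1 : ℝ) 1, E x ≤ 0 := by
    intro x hx
    rcases le_total 0 x with hx0 | hx0
    · have hanti : AntitoneOn (fun x => E x * Real.exp (-M * x)) (Ioo (-1) 1) := by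
        refine antitoneOn_of_deriv_nonpos (convex_Ioo _ _) (fun y hy => ?_) (fun y hy => ?_)
          (fun y hy => ?_)
        · exact ((hdE y hy).fun_mul (hexp (-M) y)).continuousAt.continuousWithinAt
        · rw [interior_Ioo] at hy
          exact ((hdE y hy).fun_mul (hexp (-M) y)).differentiableAt.differentiableWithinAt
        · rw [interior_Ioo] at hy
          rw [((hdE y hy).fun_mul (hexp (-M) y)).deriv]
          have h3 := (abs_le.1 (hbd y hy)).2
          have h4 := Real.exp_pos (-M * y)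
          nlinarith
      have := hanti h0 hx hx0
      simp only [hE0, zero_mul] at this
      exact nonpos_of_mul_nonpos_left this (Real.exp_pos _)
    · have hmono : MonotoneOn (fun x => E x * Real.exp (M * x)) (Ioo (-1) 1) := by
        refine monotoneOn_of_deriv_nonneg (convex_Ioo _ _) (fun y hy => ?_) (fun y hy => ?_)
          (fun y hy => ?_)
        · exact ((hdE y hy).fun_mul (hexp M y)).continuousAt.continuousWithinAt
        · rw [interior_Ioo] at hy
          exact ((hdE y hy).fun_mul (hexp M y)).differentiableAt.differentiableWithinAt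
        · rw [interior_Ioo] at hy
          rw [((hdE y hy).fun_mul (hexp M y)).deriv]
          have h3 := (abs_le.1 (hbd y hy)).1
          have h4 := Real.exp_pos (M * y)
          nlinarith
      have := hmono hx h0 hx0
      simp only [hE0, zero_mul] at this
      exact nonpos_of_mul_nonpos_left this (Real.exp_pos _)
  intro x hx
  have h3 := hzero x hx
  simp only [hE] at h3
  have h4 : w x ^ 2 = 0 := by nlinarith [sq_nonneg (w x), sq_nonneg (w' x)]
  exact (pow_eq_zero_iff two_ne_zero).1 h4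

/-- Two eigenfunctions for the same eigenvalue are proportional. -/
theorem simple (hV : ∀ x ∈ Ioo (-1 : ℝ) 1, |V x| ≤ B) {μ : ℝ} {u v v' : ℝ → ℝ}
    (hu : IsDirichletEigenfunction V μ u) (cv : ContinuousOn v (Icc (-1) 1)) (v0 : v (-1) = 0)
    (v1 : v 1 = 0) (hv1 : ∀ x ∈ Ioo (-1 : ℝ) 1, HasDerivAt v (v' x) x)
    (hv2 : ∀ x ∈ Ioo (-1 : ℝ) 1, HasDerivAt v' (V x * v x - μ * v x) x)
    (hne : v 0 ≠ 0 ∨ v' 0 ≠ 0) : ∃ c : ℝ, ∀ x ∈ Ioo (-1 : ℝ) 1, u x = c * v x := by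
  obtain ⟨cu, u0, u1, -, u', hu1, hu2⟩ := hu
  obtain ⟨M, hM⟩ := deriv_bounded hV cu hu2
  obtain ⟨N, hN⟩ := deriv_bounded hV cv hv2
  obtain ⟨t1, t2⟩ := wronskian_tendsto cu cv hM hN u1 u0 v1 v0
  have h0 : (0 : ℝ) ∈ Ioo (-1 : ℝ) 1 := ⟨by norm_num, by norm_num⟩
  -- the Wronskian is constant
  have hder : ∀ x ∈ Ioo (-1 : ℝ) 1, HasDerivAt (fun x => u x * v' x - v x * u' x) 0 x := by
    intro x hx
    have := ((hu1 x hx).fun_mul (hv2 x hx)).fun_sub ((hv1 x hx).fun_mul (hu2 x hx))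
    refine this.congr_deriv ?_
    ring
  have hconst : ∀ x ∈ Ioo (-1 : ℝ) 1, u x * v' x - v x * u' x = u 0 * v' 0 - v 0 * u' 0 := by
    intro x hx
    have h3 := Convex.norm_image_sub_le_of_norm_hasDerivWithin_le
      (f := fun x => u x * v' x - v x * u' x) (f' := fun _ => (0 : ℝ)) (C := 0)
      (s := Ioo (-1) 1) (fun y hy => (hder y hy).hasDerivWithinAt) (fun y _ => by simp)
      (convex_Ioo _ _) h0 hx
    rw [zero_mul] at h3
    exact sub_eq_zero.1 (norm_le_zero_iff.1 h3)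
  have hW : u 0 * v' 0 - v 0 * u' 0 = 0 := by
    have e2 : ∀ᶠ x in 𝓝[<] (1 : ℝ), x ∈ Ioo (-1 : ℝ) 1 := Ioo_mem_nhdsLT (by norm_num)
    have h3 : Tendsto (fun _ : ℝ => u 0 * v' 0 - v 0 * u' 0) (𝓝[<] (1 : ℝ)) (𝓝 0) :=
      t2.congr' (e2.mono fun x hx => hconst x hx)
    exact tendsto_nhds_unique tendsto_const_nhds h3
  have key : ∀ c : ℝ, u 0 = c * v 0 → u' 0 = c * v' 0 →
      ∀ x ∈ Ioo (-1 : ℝ) 1, u x = c * v x := by
    intro c hc1 hc2 x hx
    have := uniqueness hV (μ := μ) (w := fun x => u x - c * v x) (w' := fun x => u' x - c * v' x)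
      (fun x hx => (hu1 x hx).fun_sub ((hv1 x hx).const_mul c))
      (fun x hx => by
        refine ((hu2 x hx).fun_sub ((hv2 x hx).const_mul c)).congr_deriv ?_
        ring) (by simp only [hc1, sub_self]) (by simp only [hc2, sub_self]) x hx
    exact sub_eq_zero.1 this
  rcases hne with h | h
  · refine ⟨u 0 / v 0, key _ (by field_simp) ?_⟩
    field_simp
    linarith
  · refine ⟨u' 0 / v' 0, key _ ?_ (by field_simp)⟩
    field_simp
    linarith

/-- An explicit eigenfunction occurs, up to a factor, in each admissible eigenbasis. -/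
theorem occurs (hV : ∀ x ∈ Ioo (-1 : ℝ) 1, |V x| ≤ B) {lam : ℕ → ℝ} {u : ℕ → ℝ → ℝ}
    (hb : AdmissibleEigenbasis V lam u) {μ : ℝ} {v v' : ℝ → ℝ} (cv : ContinuousOn v (Icc (-1) 1))
    (v0 : v (-1) = 0) (v1 : v 1 = 0) (hv1 : ∀ x ∈ Ioo (-1 : ℝ) 1, HasDerivAt v (v' x) x)
    (hv2 : ∀ x ∈ Ioo (-1 : ℝ) 1, HasDerivAt v' (V x * v x - μ * v x) x)
    (hne : v 0 ≠ 0 ∨ v' 0 ≠ 0) (hpos : 0 < ∫ x in Ioo (-1 : ℝ) 1, v x ^ 2) :
    ∃ j, lam j = μ ∧ mean V (u j) * (∫ x in Ioo (-1 : ℝ) 1, v x ^ 2) = mean V v := by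
  have hnz : ∃ x ∈ Ioo (-1 : ℝ) 1, v x ≠ 0 := by
    by_contra hcon
    push Not at hcon
    have : ∫ x in Ioo (-1 : ℝ) 1, v x ^ 2 = 0 := by
      rw [setIntegral_congr_fun (g := fun _ => (0 : ℝ)) measurableSet_Ioo (fun x hx => by
        simp only [hcon x hx]; norm_num)]
      simp
    linarith
  have hvE : IsDirichletEigenfunction V μ v := ⟨cv, v0, v1, hnz, v', hv1, hv2⟩
  have hmem : MemLp v 2 (volume.restrict (Ioo (-1) 1)) := by
    obtain ⟨U, hU⟩ := isCompact_Icc.exists_bound_of_continuousOn cv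
    refine MemLp.of_bound ((cv.mono Ioo_subset_Icc_self).aestronglyMeasurable measurableSet_Ioo) U ?_
    filter_upwards [ae_restrict_mem measurableSet_Ioo] with x hx
    exact hU x (Ioo_subset_Icc_self hx)
  obtain ⟨j, hj⟩ : ∃ j, ∫ x in Ioo (-1 : ℝ) 1, v x * u j x ≠ 0 := by
    by_contra hcon
    push Not at hcon
    have h1 := hb.complete v hmem hcon
    have h2 : ∫ x in Ioo (-1 : ℝ) 1, v x ^ 2 = 0 := by
      rw [integral_congr_ae (g := fun _ => (0 : ℝ))]
      · simp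
      · filter_upwards [h1] with x hx
        rw [hx]
        simp
    linarith
  have hlam : lam j = μ := by
    by_contra hcon
    exact hj (orth hV (hb.eigen j) hvE hcon)
  refine ⟨j, hlam, ?_⟩
  have huj := hb.eigen j
  rw [hlam] at huj
  obtain ⟨c, hc⟩ := simple hV huj cv v0 v1 hv1 hv2 hne
  have h1 : c ^ 2 * (∫ x in Ioo (-1 : ℝ) 1, v x ^ 2) = 1 := by
    refine Eq.trans ?_ (hb.normalized j)
    rw [← integral_const_mul]
    refine setIntegral_congr_fun measurableSet_Ioo fun x hx => ?_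
    simp only [hc x hx]
    ring
  have h2 : mean V (u j) = c ^ 2 * mean V v := by
    unfold mean
    rw [← integral_const_mul]
    refine setIntegral_congr_fun measurableSet_Ioo fun x hx => ?_
    simp only [hc x hx]
    ring
  rw [h2]
  calc c ^ 2 * mean V v * (∫ x in Ioo (-1 : ℝ) 1, v x ^ 2)
      = (c ^ 2 * (∫ x in Ioo (-1 : ℝ) 1, v x ^ 2)) * mean V v := by ring
    _ = mean V v := by rw [h1, one_mul]

end Pool.Agent.R228.PM
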