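import Pool.Agent.R228.PM.States

/-!
# Two eigenvalues and their eigenfunctions
-/

set_option autoImplicit false

namespace Pool.Agent.R228.PM

open Set MeasureTheory Filter Topology

/-- The odd solution on the half line. -/
noncomputable def Uo (k x : ℝ) : ℝ := Sn k x + ep / k * Cs k x

/-- Its derivative. -/
noncomputable def Uo' (k x : ℝ) : ℝ := Sn' k x + ep / k * Cs' k x

/-- The even solution on the half line. -/
noncomputable def Pe (k x : ℝ) : ℝ := (1 - ep ^ 2 / k ^ 2) * Cs k x - ep / k * Sn k x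

/-- Its derivative. -/
noncomputable def Pe' (k x : ℝ) : ℝ := (1 - ep ^ 2 / k ^ 2) * Cs' k x - ep / k * Sn' k x

theorem al_zero : al 0 = ep := by
  unfold al
  rw [mul_zero, sub_zero, div_one]

theorem al_one : al 1 = 1 / 9999 := by
  unfold al ep
  norm_num

variable {k x : ℝ}

theorem Uo_deriv (hk : k ≠ 0) (hx : x < 10000) : HasDerivAt (Uo k) (Uo' k x) x :=
  (Sn_deriv hk hx).fun_add ((Cs_deriv hk hx).const_mul _)

theorem Uo_deriv2 (hk : k ≠ 0) (hx : x < 10000) :
    HasDerivAt (Uo' k) ((2 * al x ^ 2 - k ^ 2) * Uo k x) x := by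
  refine ((Sn_deriv2 hk hx).fun_add ((Cs_deriv2 hk hx).const_mul _)).congr_deriv ?_
  unfold Uo
  ring

theorem Pe_deriv (hk : k ≠ 0) (hx : x < 10000) : HasDerivAt (Pe k) (Pe' k x) x :=
  ((Cs_deriv hk hx).const_mul _).fun_sub ((Sn_deriv hk hx).const_mul _)

theorem Pe_deriv2 (hk : k ≠ 0) (hx : x < 10000) :
    HasDerivAt (Pe' k) ((2 * al x ^ 2 - k ^ 2) * Pe k x) x := by
  refine (((Cs_deriv2 hk hx).const_mul _).fun_sub ((Sn_deriv2 hk hx).const_mul _)).congr_deriv ?_
  unfold Pe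
  ring

theorem Uo_zero : Uo k 0 = 0 := by
  unfold Uo Sn Cs
  rw [al_zero, mul_zero, Real.sin_zero, Real.cos_zero]
  ring

theorem Uo'_zero (hk : k ≠ 0) : Uo' k 0 = k := by
  unfold Uo' Sn' Cs'
  rw [al_zero, mul_zero, Real.sin_zero, Real.cos_zero]
  field_simp
  ring

theorem Pe'_zero (hk : k ≠ 0) : Pe' k 0 = 0 := by
  unfold Pe' Sn' Cs'
  rw [al_zero, mul_zero, Real.sin_zero, Real.cos_zero]
  field_simp
  ring

theorem Pe_zero (hk : k ≠ 0) : Pe k 0 = 1 := by
  unfold Pe Sn Cs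
  rw [al_zero, mul_zero, Real.sin_zero, Real.cos_zero]
  field_simp
  ring

theorem Uo_eq (hk : k ≠ 0) : Uo k x = Real.sin (k * x) + ep * al x / k ^ 2 * Real.sin (k * x) -
    (al x - ep) / k * Real.cos (k * x) := by
  unfold Uo Sn Cs
  field_simp
  ring

theorem Pe_eq (hk : k ≠ 0) : Pe k x = Real.cos (k * x) +
    (ep * al x - ep ^ 2) / k ^ 2 * Real.cos (k * x) +
    (al x - ep - ep ^ 2 * al x / k ^ 2) / k * Real.sin (k * x) := by
  unfold Pe Sn Cs
  field_simp
  ring

theorem sin_small : (1 : ℝ) / 20000 ≤ Real.sin (1 / 10000) := by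
  have hπ := Real.pi_gt_three
  have hπ' := Real.pi_lt_d2
  have h := Real.mul_le_sin (x := 1 / 10000) (by norm_num) (by linarith)
  refine le_trans ?_ h
  have : (1 : ℝ) / 2 ≤ 2 / Real.pi := by
    rw [div_le_div_iff₀ (by norm_num) Real.pi_pos]
    linarith
  nlinarith

theorem odd_root : ∃ k : ℝ, Real.pi ≤ k ∧ k ≤ Real.pi + 1 / 10000 ∧ Uo k 1 = 0 := by
  have hπ := Real.pi_gt_three
  have hcont : ContinuousOn (fun k : ℝ => Real.sin k + ep * al 1 / k ^ 2 * Real.sin k -
    (al 1 - ep) / k * Real.cos k) (Icc Real.pi (Real.pi + 1 / 10000)) := by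
    intro k hk
    have hk0 : k ≠ 0 := by
      have := hk.1
      intro h
      linarith
    have : ContinuousAt (fun k : ℝ => Real.sin k + ep * al 1 / k ^ 2 * Real.sin k -
      (al 1 - ep) / k * Real.cos k) k := by
      fun_prop (disch := positivity)
    exact this.continuousWithinAt
  have hl : 0 ≤ Real.sin Real.pi + ep * al 1 / Real.pi ^ 2 * Real.sin Real.pi -
      (al 1 - ep) / Real.pi * Real.cos Real.pi := by
    rw [Real.sin_pi, Real.cos_pi, al_one]
    have : 0 < (1 / 9999 - ep) / Real.pi := by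
      unfold ep
      apply div_pos _ Real.pi_pos
      norm_num
    linarith
  set K : ℝ := Real.pi + 1 / 10000 with hK
  have hr : Real.sin K + ep * al 1 / K ^ 2 * Real.sin K - (al 1 - ep) / K * Real.cos K ≤ 0 := by
    have e1 : Real.sin K = -Real.sin (1 / 10000) := by
      rw [hK, add_comm, Real.sin_add_pi]
    have e2 : Real.cos K = -Real.cos (1 / 10000) := by
      rw [hK, add_comm, Real.cos_add_pi]
    rw [e1, e2, al_one]
    have h1 := sin_small
    have h2 := Real.cos_le_one (1 / 10000)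
    have hK3 : 3 < K := by linarith
    have h3 : 0 ≤ (1 / 9999 - ep) / K := by
      unfold ep
      apply div_nonneg _ (by linarith)
      norm_num
    have h4 : (1 / 9999 - ep) / K ≤ 1 / 20000 := by
      rw [div_le_iff₀ (by linarith)]
      unfold ep
      linarith
    have h5 : (1 / 9999 - ep) / K * Real.cos (1 / 10000) ≤ 1 / 20000 := by nlinarith
    have h6 : 0 ≤ ep * (1 / 9999) / K ^ 2 * Real.sin (1 / 10000) := by
      have := ep_pos
      have h7 : 0 ≤ Real.sin (1 / 10000) := by linarith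
      positivity
    linarith
  obtain ⟨k, hk, hk0⟩ := intermediate_value_Icc' (by linarith : Real.pi ≤ K) hcont
    (Set.mem_Icc.2 ⟨hr, hl⟩)
  refine ⟨k, hk.1, hk.2, ?_⟩
  rw [Uo_eq (by have := hk.1; intro h; linarith), mul_one]
  exact hk0

theorem even_root : ∃ k : ℝ, 3 * Real.pi / 2 ≤ k ∧ k ≤ 3 * Real.pi / 2 + 1 / 10000 ∧
    Pe k 1 = 0 := by
  have hπ := Real.pi_gt_three
  have hπ' := Real.pi_lt_d2
  set K0 : ℝ := 3 * Real.pi / 2 with hK0
  set K : ℝ := K0 + 1 / 10000 with hK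
  have hcont : ContinuousOn (fun k : ℝ => Real.cos k + (ep * al 1 - ep ^ 2) / k ^ 2 * Real.cos k +
      (al 1 - ep - ep ^ 2 * al 1 / k ^ 2) / k * Real.sin k) (Icc K0 K) := by
    intro k hk
    have hk0 : k ≠ 0 := by
      have := hk.1
      intro h
      linarith
    have : ContinuousAt (fun k : ℝ => Real.cos k + (ep * al 1 - ep ^ 2) / k ^ 2 * Real.cos k +
      (al 1 - ep - ep ^ 2 * al 1 / k ^ 2) / k * Real.sin k) k := by
      fun_prop (disch := positivity)
    exact this.continuousWithinAt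
  have c1 : ∀ t : ℝ, Real.cos (K0 + t) = Real.sin t := by
    intro t
    rw [hK0, show 3 * Real.pi / 2 + t = (t + Real.pi / 2) + Real.pi by ring, Real.cos_add_pi,
      Real.cos_add_pi_div_two, neg_neg]
  have c2 : ∀ t : ℝ, Real.sin (K0 + t) = -Real.cos t := by
    intro t
    rw [hK0, show 3 * Real.pi / 2 + t = (t + Real.pi / 2) + Real.pi by ring, Real.sin_add_pi,
      Real.sin_add_pi_div_two]
  have hb : ∀ k : ℝ, 3 < k → 0 ≤ (al 1 - ep - ep ^ 2 * al 1 / k ^ 2) / k ∧
      (al 1 - ep - ep ^ 2 * al 1 / k ^ 2) / k ≤ 1 / 100000 := by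
    intro k hk
    rw [al_one]
    unfold ep
    have h1 : (1 / 10000 : ℝ) ^ 2 * (1 / 9999) / k ^ 2 ≤ (1 / 10000) ^ 2 * (1 / 9999) := by
      apply div_le_self (by positivity)
      nlinarith
    have h2 : 0 ≤ (1 / 10000 : ℝ) ^ 2 * (1 / 9999) / k ^ 2 := by positivity
    constructor
    · apply div_nonneg _ (by linarith)
      norm_num at h1 ⊢
      linarith
    · rw [div_le_iff₀ (by linarith)]
      norm_num at h2 ⊢
      linarith
  have hc : ∀ k : ℝ, 0 ≤ (ep * al 1 - ep ^ 2) / k ^ 2 := by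
    intro k
    rw [al_one]
    unfold ep
    apply div_nonneg _ (sq_nonneg _)
    norm_num
  have hl : Real.cos K0 + (ep * al 1 - ep ^ 2) / K0 ^ 2 * Real.cos K0 +
      (al 1 - ep - ep ^ 2 * al 1 / K0 ^ 2) / K0 * Real.sin K0 ≤ 0 := by
    have e1 := c1 0
    have e2 := c2 0
    rw [add_zero] at e1 e2
    rw [e1, e2, Real.sin_zero, Real.cos_zero]
    have := (hb K0 (by linarith)).1
    linarith
  have hr : 0 ≤ Real.cos K + (ep * al 1 - ep ^ 2) / K ^ 2 * Real.cos K +
      (al 1 - ep - ep ^ 2 * al 1 / K ^ 2) / K * Real.sin K := by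
    rw [hK, c1, c2, ← hK]
    have h1 := sin_small
    have h2 := Real.cos_le_one (1 / 10000)
    have h3 : 0 ≤ (ep * al 1 - ep ^ 2) / K ^ 2 * Real.sin (1 / 10000) :=
      mul_nonneg (hc K) (by linarith)
    obtain ⟨h4, h5⟩ := hb K (by linarith)
    nlinarith
  obtain ⟨k, hk, hk0⟩ := intermediate_value_Icc (by linarith : K0 ≤ K) hcont
    (Set.mem_Icc.2 ⟨hl, hr⟩)
  refine ⟨k, hk.1, hk.2, ?_⟩
  rw [Pe_eq (by have := hk.1; intro h; linarith), mul_one]
  exact hk0

/-! ### Estimates -/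

theorem al_bounds (h0 : 0 ≤ x) (h1 : x ≤ 1) : ep ≤ al x ∧ al x ≤ 1 / 9999 := by
  unfold al ep
  constructor
  · rw [le_div_iff₀ (by linarith)]
    nlinarith
  · rw [div_le_iff₀ (by linarith)]
    linarith

theorem al_sub (h1 : x < 10000) : al x - ep = ep * x * al x := by
  have := den_pos h1
  unfold al
  field_simp
  ring

theorem Uo_close (hk0 : Real.pi ≤ k) (hk1 : k ≤ Real.pi + 1 / 10000) (h0 : 0 ≤ x) (h1 : x ≤ 1) :
    |Uo k x - Real.sin (Real.pi * x)| ≤ 1 / 5000 := by
  have hπ := Real.pi_gt_three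
  have hk : 3 < k := by linarith
  obtain ⟨a1, a2⟩ := al_bounds h0 h1
  have hep := ep_pos
  rw [Uo_eq (by linarith)]
  have b1 : |Real.sin (k * x) - Real.sin (Real.pi * x)| ≤ 1 / 10000 := by
    have h2 := Real.abs_sin_sub_sin_le (k * x) (Real.pi * x)
    refine h2.trans ?_
    rw [← sub_mul, abs_mul, abs_of_nonneg (by linarith : 0 ≤ k - Real.pi), abs_of_nonneg h0]
    nlinarith
  have b2 : |ep * al x / k ^ 2 * Real.sin (k * x)| ≤ 1 / 100000 := by
    rw [abs_mul]
    have h3 : |ep * al x / k ^ 2| ≤ 1 / 100000 := by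
      rw [abs_of_nonneg (by have : 0 ≤ al x := by linarith
                            positivity)]
      rw [div_le_iff₀ (by positivity)]
      unfold ep
      nlinarith
    exact (mul_le_mul h3 (Real.abs_sin_le_one _) (abs_nonneg _) (by norm_num)).trans (by norm_num)
  have b3 : |(al x - ep) / k * Real.cos (k * x)| ≤ 1 / 100000 := by
    rw [abs_mul]
    have h3 : |(al x - ep) / k| ≤ 1 / 100000 := by
      rw [abs_of_nonneg (div_nonneg (by linarith) (by linarith))]
      rw [div_le_iff₀ (by linarith)]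
      unfold ep at *
      linarith
    exact (mul_le_mul h3 (Real.abs_cos_le_one _) (abs_nonneg _) (by norm_num)).trans (by norm_num)
  rw [abs_le] at b1 b2 b3 ⊢
  constructor
  · linarith [b1.1, b2.1, b3.2]
  · linarith [b1.2, b2.2, b3.1]

theorem Pe_close (hk0 : 3 * Real.pi / 2 ≤ k) (hk1 : k ≤ 3 * Real.pi / 2 + 1 / 10000)
    (h0 : 0 ≤ x) (h1 : x ≤ 1) : |Pe k x - Real.cos (3 * Real.pi / 2 * x)| ≤ 1 / 5000 := by
  have hπ := Real.pi_gt_three
  have hk : 3 < k := by linarith
  obtain ⟨a1, a2⟩ := al_bounds h0 h1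
  have hep := ep_pos
  rw [Pe_eq (by linarith)]
  have b1 : |Real.cos (k * x) - Real.cos (3 * Real.pi / 2 * x)| ≤ 1 / 10000 := by
    have h2 := Real.abs_cos_sub_cos_le (k * x) (3 * Real.pi / 2 * x)
    refine h2.trans ?_
    rw [← sub_mul, abs_mul, abs_of_nonneg (by linarith : 0 ≤ k - 3 * Real.pi / 2), abs_of_nonneg h0]
    nlinarith
  have b2 : |(ep * al x - ep ^ 2) / k ^ 2 * Real.cos (k * x)| ≤ 1 / 100000 := by
    rw [abs_mul]
    have h3 : |(ep * al x - ep ^ 2) / k ^ 2| ≤ 1 / 100000 := by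
      rw [abs_of_nonneg (div_nonneg (by nlinarith) (sq_nonneg _))]
      rw [div_le_iff₀ (by positivity)]
      unfold ep at *
      nlinarith
    exact (mul_le_mul h3 (Real.abs_cos_le_one _) (abs_nonneg _) (by norm_num)).trans (by norm_num)
  have b3 : |(al x - ep - ep ^ 2 * al x / k ^ 2) / k * Real.sin (k * x)| ≤ 1 / 100000 := by
    rw [abs_mul]
    have h4 : 0 ≤ ep ^ 2 * al x / k ^ 2 := by
      have : 0 ≤ al x := by linarith
      positivity
    have h5 : ep ^ 2 * al x / k ^ 2 ≤ 1 / 10000000 := by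
      rw [div_le_iff₀ (by positivity)]
      unfold ep at *
      nlinarith
    have h3 : |(al x - ep - ep ^ 2 * al x / k ^ 2) / k| ≤ 1 / 100000 := by
      rw [abs_div, abs_of_pos (by linarith : 0 < k), div_le_iff₀ (by linarith), abs_le]
      unfold ep at *
      constructor <;> linarith
    exact (mul_le_mul h3 (Real.abs_sin_le_one _) (abs_nonneg _) (by norm_num)).trans (by norm_num)
  rw [abs_le] at b1 b2 b3 ⊢
  constructor
  · linarith [b1.1, b2.1, b3.1]
  · linarith [b1.2, b2.2, b3.2]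

end Pool.Agent.R228.PM
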