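import Pool.Agent.R228.PM.Ode

/-!
# The explicit potential and its explicit solutions
-/

set_option autoImplicit false

namespace Pool.Agent.R228.PM

open Set MeasureTheory Filter Topology

/-- The small parameter. -/
noncomputable def ep : ℝ := 1 / 10000

/-- The auxiliary function `ε / (1 - ε x)`. -/
noncomputable def al (x : ℝ) : ℝ := ep / (1 - ep * x)

/-- The potential `2 ε² / (1 - ε |x|)²`. -/
noncomputable def pot (x : ℝ) : ℝ := 2 * (ep / (1 - ep * |x|)) ^ 2

theorem ep_pos : 0 < ep := by
  unfold ep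
  norm_num

theorem den_pos {x : ℝ} (hx : x < 10000) : 0 < 1 - ep * x := by
  unfold ep
  linarith

theorem al_deriv {x : ℝ} (hx : x < 10000) : HasDerivAt al (al x ^ 2) x := by
  have h := den_pos hx
  have h1 : HasDerivAt (fun x : ℝ => 1 - ep * x) (-ep) x := by
    simpa using ((hasDerivAt_id x).const_mul ep).const_sub 1
  have h2 := (h1.inv h.ne').const_mul ep
  refine (h2.congr_deriv ?_)
  unfold al
  field_simp

theorem pot_convex : ConvexOn ℝ (Ioo (-1) 1) pot := by
  refine ⟨convex_Ioo _ _, ?_⟩
  intro x hx y hy a b ha hb hab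
  have hxa : |x| < 1 := abs_lt.2 hx
  have hya : |y| < 1 := abs_lt.2 hy
  have hep := ep_pos
  have hep1 : ep < 1 := by
    unfold ep
    norm_num
  have gx : 0 < 1 - ep * |x| := by nlinarith [abs_nonneg x]
  have gy : 0 < 1 - ep * |y| := by nlinarith [abs_nonneg y]
  simp only [smul_eq_mul]
  have hab' : |a * x + b * y| ≤ a * |x| + b * |y| := by
    refine (abs_add_le _ _).trans ?_
    rw [abs_mul, abs_mul, abs_of_nonneg ha, abs_of_nonneg hb]
  have hs : a * (1 - ep * |x|) + b * (1 - ep * |y|) ≤ 1 - ep * |a * x + b * y| := by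
    have : ep * |a * x + b * y| ≤ ep * (a * |x| + b * |y|) :=
      mul_le_mul_of_nonneg_left hab' hep.le
    have e : a * (1 - ep * |x|) + b * (1 - ep * |y|) = (a + b) - ep * (a * |x| + b * |y|) := by ring
    rw [e, hab]
    linarith
  have hs0 : 0 < a * (1 - ep * |x|) + b * (1 - ep * |y|) := by
    rcases ha.eq_or_lt with h | h
    · have : b = 1 := by linarith
      rw [← h, this]
      linarith
    · have := mul_pos h gx
      have := mul_nonneg hb gy.le
      linarith
  unfold pot
  set p := 1 - ep * |x|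
  set q := 1 - ep * |y|
  set r := 1 - ep * |a * x + b * y|
  have hr : 0 < r := hs0.trans_le hs
  have hconv := (convexOn_zpow (𝕜 := ℝ) (-2)).2 (show p ∈ Ioi (0 : ℝ) from gx)
    (show q ∈ Ioi (0 : ℝ) from gy) ha hb hab
  simp only [smul_eq_mul] at hconv
  have hz : ∀ t : ℝ, t ^ (-2 : ℤ) = 1 / t ^ 2 := by
    intro t
    rw [zpow_neg, one_div]
    norm_cast
  rw [hz, hz, hz] at hconv
  have h1 : 1 / r ^ 2 ≤ 1 / (a * p + b * q) ^ 2 := by
    apply one_div_le_one_div_of_le (by positivity)
    exact pow_le_pow_left₀ hs0.le hs 2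
  have h2 := h1.trans hconv
  have h3 : 2 * ep ^ 2 * (1 / r ^ 2) ≤ 2 * ep ^ 2 * (a * (1 / p ^ 2) + b * (1 / q ^ 2)) :=
    mul_le_mul_of_nonneg_left h2 (by positivity)
  have e1 : 2 * (ep / r) ^ 2 = 2 * ep ^ 2 * (1 / r ^ 2) := by
    field_simp
  have e2 : a * (2 * (ep / p) ^ 2) + b * (2 * (ep / q) ^ 2) =
      2 * ep ^ 2 * (a * (1 / p ^ 2) + b * (1 / q ^ 2)) := by
    field_simp
  rw [e1, e2]
  exact h3

section sol

variable {k x : ℝ}

/-- The two solutions for `x ≥ 0` and their derivatives. -/
noncomputable def Cs (k x : ℝ) : ℝ := Real.cos (k * x) + al x / k * Real.sin (k * x)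

/-- The derivative of `Cs`. -/
noncomputable def Cs' (k x : ℝ) : ℝ :=
  -(k * Real.sin (k * x)) + al x * Real.cos (k * x) + al x ^ 2 / k * Real.sin (k * x)

/-- The second solution. -/
noncomputable def Sn (k x : ℝ) : ℝ := Real.sin (k * x) - al x / k * Real.cos (k * x)

/-- The derivative of `Sn`. -/
noncomputable def Sn' (k x : ℝ) : ℝ :=
  k * Real.cos (k * x) + al x * Real.sin (k * x) - al x ^ 2 / k * Real.cos (k * x)

theorem hcos (k x : ℝ) : HasDerivAt (fun x => Real.cos (k * x)) (-(k * Real.sin (k * x))) x := by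
  have h1 : HasDerivAt (fun x : ℝ => k * x) k x := by
    simpa using (hasDerivAt_id x).const_mul k
  have h2 := (Real.hasDerivAt_cos (k * x)).comp x h1
  have e : -Real.sin (k * x) * k = -(k * Real.sin (k * x)) := by ring
  rw [e] at h2
  exact h2

theorem hsin (k x : ℝ) : HasDerivAt (fun x => Real.sin (k * x)) (k * Real.cos (k * x)) x := by
  have h1 : HasDerivAt (fun x : ℝ => k * x) k x := by
    simpa using (hasDerivAt_id x).const_mul k
  have h2 := (Real.hasDerivAt_sin (k * x)).comp x h1
  have e : Real.cos (k * x) * k = k * Real.cos (k * x) := by ring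
  rw [e] at h2
  exact h2

theorem Cs_deriv (hk : k ≠ 0) (hx : x < 10000) : HasDerivAt (Cs k) (Cs' k x) x := by
  have := (hcos k x).fun_add (((al_deriv hx).div_const k).fun_mul (hsin k x))
  refine this.congr_deriv ?_
  unfold Cs'
  field_simp
  ring

theorem Sn_deriv (hk : k ≠ 0) (hx : x < 10000) : HasDerivAt (Sn k) (Sn' k x) x := by
  have := (hsin k x).fun_sub (((al_deriv hx).div_const k).fun_mul (hcos k x))
  refine this.congr_deriv ?_
  unfold Sn'
  field_simp
  ring

theorem Cs_deriv2 (hk : k ≠ 0) (hx : x < 10000) :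
    HasDerivAt (Cs' k) ((2 * al x ^ 2 - k ^ 2) * Cs k x) x := by
  have := (((hsin k x).const_mul k).fun_neg.fun_add ((al_deriv hx).fun_mul (hcos k x))).fun_add
    ((((al_deriv hx).fun_pow 2).div_const k).fun_mul (hsin k x))
  refine this.congr_deriv ?_
  unfold Cs
  simp only [Nat.cast_ofNat]
  field_simp
  ring

theorem Sn_deriv2 (hk : k ≠ 0) (hx : x < 10000) :
    HasDerivAt (Sn' k) ((2 * al x ^ 2 - k ^ 2) * Sn k x) x := by
  have := (((hcos k x).const_mul k).fun_add ((al_deriv hx).fun_mul (hsin k x))).fun_sub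
    ((((al_deriv hx).fun_pow 2).div_const k).fun_mul (hcos k x))
  refine this.congr_deriv ?_
  unfold Sn
  simp only [Nat.cast_ofNat]
  field_simp
  ring

end sol

/-- The even extension. -/
noncomputable def evG (F : ℝ → ℝ) (x : ℝ) : ℝ := F |x|

/-- The odd extension. -/
noncomputable def odG (F : ℝ → ℝ) (x : ℝ) : ℝ := if 0 ≤ x then F x else -F (-x)

theorem evG_deriv {F F' : ℝ → ℝ} {x R : ℝ} (hF : ∀ y < R, HasDerivAt F (F' y) y) (hx : |x| < R)
    (h0 : F' 0 = 0) : HasDerivAt (evG F) (odG F' x) x := by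
  have hR : 0 < R := (abs_nonneg x).trans_lt hx
  have hneg : ∀ y, -y < R → HasDerivAt (fun y => F (-y)) (-F' (-y)) y := by
    intro y hy
    have h1 := (hF (-y) hy).comp y (hasDerivAt_neg y)
    refine h1.congr_deriv ?_
    ring
  rcases lt_trichotomy x 0 with h | h | h
  · have e : odG F' x = -F' (-x) := by
      unfold odG
      rw [if_neg (not_le.2 h)]
    rw [e]
    refine (hneg x (by rwa [abs_of_neg h] at hx)).congr_of_eventuallyEq ?_
    filter_upwards [Iio_mem_nhds h] with y hy
    unfold evG
    rw [abs_of_neg hy]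
  · subst h
    have e : odG F' 0 = 0 := by
      unfold odG
      rw [if_pos le_rfl, h0]
    rw [e]
    have h1 : HasDerivWithinAt (evG F) 0 (Ici 0) 0 := by
      have := (hF 0 hR).hasDerivWithinAt (s := Ici 0)
      rw [h0] at this
      refine this.congr (fun y hy => ?_) ?_
      · unfold evG
        rw [abs_of_nonneg hy]
      · unfold evG
        rw [abs_zero]
    have h2 : HasDerivWithinAt (evG F) 0 (Iic 0) 0 := by
      have := (hneg 0 (by simpa using hR)).hasDerivWithinAt (s := Iic 0)
      rw [neg_zero, h0, neg_zero] at this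
      refine this.congr (fun y hy => ?_) ?_
      · unfold evG
        rw [abs_of_nonpos hy]
      · unfold evG
        rw [abs_zero, neg_zero]
    have h3 := h1.union h2
    rw [Ici_union_Iic, hasDerivWithinAt_univ] at h3
    exact h3
  · have e : odG F' x = F' x := by
      unfold odG
      rw [if_pos h.le]
    rw [e]
    refine (hF x (by rwa [abs_of_pos h] at hx)).congr_of_eventuallyEq ?_
    filter_upwards [Ioi_mem_nhds h] with y hy
    unfold evG
    rw [abs_of_pos hy]

theorem odG_deriv {F F' : ℝ → ℝ} {x R : ℝ} (hF : ∀ y < R, HasDerivAt F (F' y) y) (hx : |x| < R)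
    (h0 : F 0 = 0) : HasDerivAt (odG F) (evG F' x) x := by
  have hR : 0 < R := (abs_nonneg x).trans_lt hx
  have hneg : ∀ y, -y < R → HasDerivAt (fun y => -F (-y)) (F' (-y)) y := by
    intro y hy
    have h1 := ((hF (-y) hy).comp y (hasDerivAt_neg y)).fun_neg
    refine h1.congr_deriv ?_
    ring
  rcases lt_trichotomy x 0 with h | h | h
  · have e : evG F' x = F' (-x) := by
      unfold evG
      rw [abs_of_neg h]
    rw [e]
    refine (hneg x (by rwa [abs_of_neg h] at hx)).congr_of_eventuallyEq ?_
    filter_upwards [Iio_mem_nhds h] with y hy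
    unfold odG
    rw [if_neg (not_le.2 hy)]
  · subst h
    have e : evG F' 0 = F' 0 := by
      unfold evG
      rw [abs_zero]
    rw [e]
    have h1 : HasDerivWithinAt (odG F) (F' 0) (Ici 0) 0 := by
      have := (hF 0 hR).hasDerivWithinAt (s := Ici 0)
      refine this.congr (fun y hy => ?_) ?_
      · unfold odG
        rw [if_pos (show (0 : ℝ) ≤ y from hy)]
      · unfold odG
        rw [if_pos le_rfl]
    have h2 : HasDerivWithinAt (odG F) (F' 0) (Iic 0) 0 := by
      have := (hneg 0 (by simpa using hR)).hasDerivWithinAt (s := Iic 0)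
      rw [neg_zero] at this
      refine this.congr (fun y hy => ?_) ?_
      · unfold odG
        rcases (show y ≤ 0 from hy).eq_or_lt with h4 | h4
        · rw [h4, if_pos le_rfl, neg_zero, h0, neg_zero]
        · rw [if_neg (not_le.2 h4)]
      · unfold odG
        rw [if_pos le_rfl, neg_zero, h0, neg_zero]
    have h3 := h1.union h2
    rw [Ici_union_Iic, hasDerivWithinAt_univ] at h3
    exact h3
  · have e : evG F' x = F' x := by
      unfold evG
      rw [abs_of_pos h]
    rw [e]
    refine (hF x (by rwa [abs_of_pos h] at hx)).congr_of_eventuallyEq ?_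
    filter_upwards [Ioi_mem_nhds h] with y hy
    unfold odG
    rw [if_pos (le_of_lt hy)]

end Pool.Agent.R228.PM
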